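import Pool.Agent.H74.RS.Main

set_option autoImplicit false
set_option linter.unusedSectionVars false

/-!
# Anosov diffeomorphisms with calibrating forms are transitive

Let `f` be a `C²` Anosov diffeomorphism of a closed connected manifold.  A calibration of an
invariant field `V` of tangent spaces of dimension `k + 1` (the unstable field of `f`, or the
unstable field of `f⁻¹`) consists of a continuous `(k + 1)`-form `w` which does not vanish on `V`
and a relation `p(f^*) w = dβ`, where `p = (X - lam) q` is a real polynomial which has, besides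
the root `lam`, no real root in the half-line of the rates of volume growth which are possible on
`V`.
If `w` is closed then `p(f^*) w` is exact for instance when `p` is the characteristic polynomial
of `f^*` on the de Rham cohomology in degree `k + 1`.

We prove that `f` is topologically transitive if the unstable fields of `f` and of `f⁻¹` both have
a calibration.
-/

open scoped Manifold ContDiff Topology Polynomial
open Set Filter Polynomial

namespace Pool.Agent.Results.MP_610fe3_an.CalibratedAnosov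

open Pool.Agent.H721R2 Pool.Agent.H789R2.AN

section defs

variable {E : Type*} [NormedAddCommGroup E] [NormedSpace ℝ E]
  {M : Type*} [TopologicalSpace M] [ChartedSpace E M]

/-- A differential form of degree `k` on `M` (without regularity): an alternating `k`-linear form
on each tangent space. -/
abbrev Form (E : Type*) [NormedAddCommGroup E] [NormedSpace ℝ E] (M : Type*) [TopologicalSpace M]
    [ChartedSpace E M] (k : ℕ) : Type _ :=
  ∀ x : M, TangentSpace 𝓘(ℝ, E) x [⋀^Fin k]→L[ℝ] ℝ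

/-- The coordinate expression, in the chart at `x₀` and at the point `y` of its target, of the
pull-back `G^* w` of the form `w` under the map `G : M → M`. -/
noncomputable def pull {k : ℕ} (G : M → M) (w : Form E M k) (x₀ : M) (y : E) :
    E [⋀^Fin k]→L[ℝ] ℝ :=
  (w (G ((extChartAt 𝓘(ℝ, E) x₀).symm y))).compContinuousLinearMap
    (mfderiv 𝓘(ℝ, E) 𝓘(ℝ, E) (G ∘ (extChartAt 𝓘(ℝ, E) x₀).symm) y)

/-- `w` is continuous: its coordinate expressions are. -/
def IsContinuousForm {k : ℕ} (w : Form E M k) : Prop :=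
  ∀ x₀ : M, ContinuousOn (pull id w x₀) (extChartAt 𝓘(ℝ, E) x₀).target

/-- `β` is continuously differentiable: its coordinate expressions are. -/
def IsC1Form {k : ℕ} (β : Form E M k) : Prop :=
  ∀ x₀ : M, ContDiffOn ℝ 1 (pull id β x₀) (extChartAt 𝓘(ℝ, E) x₀).target

/-- `p(f^*) w = dβ`, where `p(f^*) w = ∑ pⱼ (fʲ)^* w`; the equation is written in charts. -/
def PolyExact {k : ℕ} (f : M → M) (p : ℝ[X]) (w : Form E M (k + 1)) (β : Form E M k) : Prop :=
  ∀ x₀ : M, ∀ y ∈ (extChartAt 𝓘(ℝ, E) x₀).target,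
    ∑ j ∈ Finset.range (p.natDegree + 1), p.coeff j • pull (f^[j]) w x₀ y =
      extDeriv (pull id β x₀) y

/-- The field `V`, of dimension `k + 1`, is calibrated by the continuous form `w` of degree
`k + 1`.  The sign `s` tells whether `f` preserves (`s = 1`) or reverses (`s = -1`) the
orientation that `w` gives to `V`: for all linearly independent `v₀, …, vₖ ∈ V x`,
`0 < s · w(v₀, …, vₖ) · (f^* w)(v₀, …, vₖ)`; in particular `w` does not vanish on `V`.
The number `j > 0` is a rate of growth of the volume on `V`: for some `c > 0`,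
`|(fⁿ)^* w| ≥ c jⁿ |w|` on `V`, for all `n ≥ 0`.  The relation is
`p(f^*) w = dβ` with `β` of class `C¹` and `p = (X - lam) q`, `lam ≠ 0`, where `q` has no real
root `x` with `s x ≥ j`. -/
structure IsCalibration (f : M → M)
    (V : ∀ x : M, Submodule ℝ (TangentSpace 𝓘(ℝ, E) x)) {k : ℕ} (w : Form E M (k + 1))
    (β : Form E M k) (s j lam : ℝ) (q : ℝ[X]) : Prop where
  dim : ∀ x : M, Module.finrank ℝ (V x) = k + 1
  cont : IsContinuousForm w
  c1 : IsC1Form β
  sign : s = 1 ∨ s = -1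
  pos : ∀ (x : M) (v : Fin (k + 1) → TangentSpace 𝓘(ℝ, E) x), (∀ i, v i ∈ V x) →
    LinearIndependent ℝ v →
    0 < s * (w x v * w (f x) (fun i => mfderiv 𝓘(ℝ, E) 𝓘(ℝ, E) f x (v i)))
  j_pos : 0 < j
  grow : ∃ c > 0, ∀ (n : ℕ) (x : M) (v : Fin (k + 1) → TangentSpace 𝓘(ℝ, E) x),
    (∀ i, v i ∈ V x) →
    c * j ^ n * |w x v| ≤ |w (f^[n] x) (fun i => mfderiv 𝓘(ℝ, E) 𝓘(ℝ, E) (f^[n]) x (v i))|
  lam_ne : lam ≠ 0
  roots : ∀ x : ℝ, j ≤ s * x → q.eval x ≠ 0
  exact : PolyExact f ((X - C lam) * q) w β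

/-- The field `V` has a calibration for `f`. -/
def Calibrated (f : M → M) (V : ∀ x : M, Submodule ℝ (TangentSpace 𝓘(ℝ, E) x)) : Prop :=
  ∃ (k : ℕ) (w : Form E M (k + 1)) (β : Form E M k) (s j lam : ℝ) (q : ℝ[X]),
    IsCalibration f V w β s j lam q

end defs

section aux

open Pool.Agent.H74.RS

variable {E : Type*} [NormedAddCommGroup E] [NormedSpace ℝ E] [FiniteDimensional ℝ E]
  {M : Type*} [TopologicalSpace M] [ChartedSpace E M] [IsManifold 𝓘(ℝ, E) 1 M]
  [IsManifold 𝓘(ℝ, E) 2 M]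

theorem pull_id {k : ℕ} (β : M → E [⋀^Fin k]→L[ℝ] ℝ) (x₀ : M) :
    pull id β x₀ = pl (ic E x₀) β := rfl

theorem pull_eq {k : ℕ} (G : M → M) (β : M → E [⋀^Fin k]→L[ℝ] ℝ) (x₀ : M) (y : E) :
    pull G β x₀ y = pl (G ∘ ic E x₀) β y := rfl

theorem polyExact_isEx {k : ℕ} (f : M → M) (hf : ContMDiff 𝓘(ℝ, E) 𝓘(ℝ, E) 1 f) (p : ℝ[X])
    (w : M → E [⋀^Fin (k + 1)]→L[ℝ] ℝ) (β : M → E [⋀^Fin k]→L[ℝ] ℝ) (h : PolyExact f p w β) :
    IsEx ((aeval (T (k + 1) f) p) w) β := by
  intro x₀ y hy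
  have h1 := h x₀ y hy
  rw [pull_id] at h1
  rw [aeval_T f hf, pl_sum, ← h1]
  apply Finset.sum_congr rfl
  intro j _
  rw [pl_smul, pl_pb _ (Pool.Agent.H721R2.iter_smooth f hf j) w x₀ hy]
  rfl

theorem volExp_of {k : ℕ} {f : M → M} {V : ∀ x : M, Submodule ℝ (TangentSpace 𝓘(ℝ, E) x)}
    {w : Form E M (k + 1)} {β : Form E M k} {s j lam : ℝ} {q : ℝ[X]}
    (h : IsCalibration f V w β s j lam q) : VolExp f V w j⁻¹ := by
  obtain ⟨c, hc, h1⟩ := h.grow
  have hj := h.j_pos
  refine ⟨inv_pos.mpr hj, c, hc, fun m x v hv => ?_⟩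
  have h2 : c * j ^ m * |w x v| ≤ |w (f^[m] x) (fun i => dg E (f^[m]) x (v i))| := h1 m x v hv
  have h3 : 0 < j ^ m := pow_pos hj m
  rw [inv_pow, inv_mul_eq_div, le_div_iff₀ h3]
  calc c * |w x v| * j ^ m = c * j ^ m * |w x v| := by ring
    _ ≤ _ := h2

theorem roots_of {s j : ℝ} {q : ℝ[X]} (hj : 0 < j) (h : ∀ x : ℝ, j ≤ s * x → q.eval x ≠ 0) (x : ℝ)
    (hx : 1 ≤ s * x * j⁻¹) : q.eval x ≠ 0 := by
  apply h
  rwa [← div_eq_mul_inv, le_div_iff₀ hj, one_mul] at hx

end aux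

/-- A `C²` Anosov diffeomorphism `f` of a closed connected manifold is topologically transitive if
its unstable field is calibrated for `f` and its stable field is calibrated for `f⁻¹`. -/
theorem result {E : Type*} [NormedAddCommGroup E] [NormedSpace ℝ E] [FiniteDimensional ℝ E]
    {M : Type*} [TopologicalSpace M] [T2Space M] [CompactSpace M] [ConnectedSpace M]
    [ChartedSpace E M] [IsManifold 𝓘(ℝ, E) ∞ M]
    (f : Diffeomorph 𝓘(ℝ, E) 𝓘(ℝ, E) M M 1) (hf : ContMDiff 𝓘(ℝ, E) 𝓘(ℝ, E) 2 f)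
    (hf' : ContMDiff 𝓘(ℝ, E) 𝓘(ℝ, E) 2 f.symm)
    (Es Eu : ∀ x : M, Submodule ℝ (TangentSpace 𝓘(ℝ, E) x)) (hA : IsAnosov f Es Eu)
    (hu : Calibrated f Eu) (hs : Calibrated f.symm Es) : TopTransitive f := by
  obtain ⟨k, w, β, s, j, lam, q, hc⟩ := hu
  obtain ⟨l, w', β', s', j', lam', q', hc'⟩ := hs
  obtain ⟨m, e, he, hemb, hinj⟩ := exists_embedding_euclidean_of_compact (I := 𝓘(ℝ, E)) (M := M)
  let _ : MetricSpace M := hemb.isEmbedding.comapMetricSpace e
  have hiso : ∀ x y : M, dist x y = ‖e x - e y‖ := fun x y => dist_eq_norm (e x) (e y)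
  have he1 : ContMDiff 𝓘(ℝ, E) (𝓡 m) 1 e := he.of_le (by simp)
  have i2 : IsManifold 𝓘(ℝ, E) 2 M := .of_le (n := ∞) (by norm_cast)
  have hsm : ContMDiff 𝓘(ℝ, E) 𝓘(ℝ, E) 1 f := f.contMDiff
  have hsm' : ContMDiff 𝓘(ℝ, E) 𝓘(ℝ, E) 1 f.symm := f.symm.contMDiff
  obtain ⟨C₀, a₀, b₀, Ls, Lu, hE⟩ := eanosov_of_isAnosov e he1 hinj f Es Eu hA
  obtain ⟨N₀, S, hS⟩ := Pool.Agent.H74.RS.exists_Sys hiso he1 hinj hE hc.dim
  let _ : MeasurableSpace E := borel E
  have _ : BorelSpace E := ⟨rfl⟩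
  have hsq : ∀ t : ℝ, t = 1 ∨ t = -1 → t * t = 1 := by
    rintro t (rfl | rfl) <;> norm_num
  intro U V hU hUn hV hVn
  exact Pool.Agent.H74.RS.main_metric (MeasureTheory.Measure.addHaar : MeasureTheory.Measure E)
    hS hf hf' hc'.dim hc.cont hc.c1 (hsq s hc.sign) hc.pos (volExp_of hc) hc.lam_ne
    (roots_of hc.j_pos hc.roots)
    (polyExact_isEx f hsm _ w β hc.exact) hc'.cont hc'.c1 (hsq s' hc'.sign) hc'.pos
    (volExp_of hc') hc'.lam_ne (roots_of hc'.j_pos hc'.roots)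
    (polyExact_isEx f.symm hsm' _ w' β' hc'.exact) U V hU hUn hV hVn

end Pool.Agent.Results.MP_610fe3_an.CalibratedAnosov
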