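import Pool.Agent.H74.RS.Apx

set_option autoImplicit false
set_option linter.unusedSectionVars false

/-!
# Anosov diffeomorphisms with pinched Jacobians are transitive

Let `f` be a `C²` Anosov diffeomorphism of a closed connected manifold `M` and assume that the
unstable field is orientable.  The unstable Jacobians are pinched if, in the long run, the ratio
of the largest and of the smallest Jacobian of `fⁿ` on the unstable field is dominated by the
contraction of `fⁿ` on the stable field.  Under this condition the smoothing operators of de Rham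
and the closed range of the exterior derivative (for the uniform norm) give a closed form which
does not vanish on the unstable field.

We prove that `f` is topologically transitive if the Jacobians of `f` on the unstable field and of
`f⁻¹` on the stable field are pinched, and if the action of `f` (and of `f⁻¹`) on the de Rham
cohomology of the corresponding degree is annihilated by a polynomial which has only one real root,
of multiplicity one, in the range of the possible rates of growth of the volume.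
-/

open scoped Manifold ContDiff Topology Polynomial
open Set Filter Polynomial

namespace Pool.Agent.Results.MP_610fe3_an.PinchedJacobians

open Pool.Agent.H721R2 Pool.Agent.H789R2.AN

section defs

variable {E : Type*} [NormedAddCommGroup E] [NormedSpace ℝ E]
  {M : Type*} [TopologicalSpace M] [ChartedSpace E M]

/-- A differential form of degree `k` on `M` (without regularity): an alternating `k`-linear form
on each tangent space. -/
abbrev Form (E : Type*) [NormedAddCommGroup E] [NormedSpace ℝ E] (M : Type*) [TopologicalSpace M]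
    [ChartedSpace E M] (k : ℕ) : Type _ :=
  ∀ x : M, TangentSpace 𝓘(ℝ, E) x [⋀^Fin k]→L[ℝ] ℝ

/-- The coordinate expression, in the chart at `x₀` and at the point `y` of its target, of the
pull-back `G^* w` of the form `w` under the map `G : M → M`. -/
noncomputable def pull {k : ℕ} (G : M → M) (w : Form E M k) (x₀ : M) (y : E) :
    E [⋀^Fin k]→L[ℝ] ℝ :=
  (w (G ((extChartAt 𝓘(ℝ, E) x₀).symm y))).compContinuousLinearMap
    (mfderiv 𝓘(ℝ, E) 𝓘(ℝ, E) (G ∘ (extChartAt 𝓘(ℝ, E) x₀).symm) y)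

/-- `w` is of class `Cⁿ`: its coordinate expressions are. -/
def IsFormOfClass {k : ℕ} (n : WithTop ℕ∞) (w : Form E M k) : Prop :=
  ∀ x₀ : M, ContDiffOn ℝ n (pull id w x₀) (extChartAt 𝓘(ℝ, E) x₀).target

/-- `dw = 0`, in charts. -/
def IsClosedForm {k : ℕ} (w : Form E M k) : Prop :=
  ∀ x₀ : M, ∀ y ∈ (extChartAt 𝓘(ℝ, E) x₀).target, extDeriv (pull id w x₀) y = 0

/-- `p(f^*) w = dβ`, where `p(f^*) w = ∑ pⱼ (fʲ)^* w`; the equation is written in charts. -/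
def PolyExact {k : ℕ} (f : M → M) (p : ℝ[X]) (w : Form E M (k + 1)) (β : Form E M k) : Prop :=
  ∀ x₀ : M, ∀ y ∈ (extChartAt 𝓘(ℝ, E) x₀).target,
    ∑ j ∈ Finset.range (p.natDegree + 1), p.coeff j • pull (f^[j]) w x₀ y =
      extDeriv (pull id β x₀) y

/-- `p(f^*) = 0` on the de Rham cohomology of degree `k + 1`: for every closed form `ζ` of class
`C^∞` the form `p(f^*) ζ` is the differential of a form of class `C¹`. -/
def AnnihilatesCohomology (f : M → M) (k : ℕ) (p : ℝ[X]) : Prop :=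
  ∀ ζ : Form E M (k + 1), IsFormOfClass ∞ ζ → IsClosedForm ζ →
    ∃ β : Form E M k, IsFormOfClass 1 β ∧ PolyExact f p ζ β

/-- The Jacobians of the iterates of `f` on the field `V`, with complementary field `W`, are
pinched: with `J_n(x) = |(fⁿ)^* w| / |w|` on `V x`, and for some continuous norm `N` on `TM`, for
every `κ > 0` there are `n ≥ 0` and `c > 0` such that `c ≤ J_n(x)` and
`J_n(x) N(Dfⁿ ξ) ≤ κ c N(ξ)` for all `x` and `ξ ∈ W x`.  (This does not depend on `w` and `N`.) -/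
def JacobiansPinched [IsManifold 𝓘(ℝ, E) 1 M] (f : M → M)
    (V W : ∀ x : M, Submodule ℝ (TangentSpace 𝓘(ℝ, E) x)) {k : ℕ} (w : Form E M (k + 1)) : Prop :=
  ∃ N : TangentBundle 𝓘(ℝ, E) M → ℝ, IsTangentNorm N ∧ ∀ κ > 0, ∃ (n : ℕ) (c : ℝ), 0 < c ∧
    (∀ (x : M) (v : Fin (k + 1) → TangentSpace 𝓘(ℝ, E) x), (∀ i, v i ∈ V x) →
      c * |w x v| ≤ |w (f^[n] x) (fun i => mfderiv 𝓘(ℝ, E) 𝓘(ℝ, E) (f^[n]) x (v i))|) ∧
    ∀ (x : M) (v : Fin (k + 1) → TangentSpace 𝓘(ℝ, E) x), (∀ i, v i ∈ V x) → ∀ ξ ∈ W x,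
      |w (f^[n] x) (fun i => mfderiv 𝓘(ℝ, E) 𝓘(ℝ, E) (f^[n]) x (v i))| *
        N (tangentMap 𝓘(ℝ, E) 𝓘(ℝ, E) (f^[n]) ⟨x, ξ⟩) ≤ κ * c * |w x v| * N ⟨x, ξ⟩

/-- The hypotheses on the field `V` (the unstable field of `f`; `W` is the stable field), of
dimension `k + 1`.  The continuous form `w` of degree `k + 1` orients `V`, and `f` preserves
(`s = 1`) or reverses (`s = -1`) this orientation: for all linearly independent
`v₀, …, vₖ ∈ V x`, `0 < s · w(v₀, …, vₖ) · (f^* w)(v₀, …, vₖ)`.  The number `j > 0` is a rate of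
growth of the volume: for some `c > 0`, `|(fⁿ)^* w| ≥ c jⁿ |w|` on `V`, for all `n ≥ 0`.  The
Jacobians on `V` are pinched.  The polynomial `(X - lam) q`, `lam ≠ 0`, annihilates the action of
`f` on the de Rham cohomology of degree `k + 1`, and `q` has no real root `x` with `s x ≥ j`. -/
structure IsPinched [IsManifold 𝓘(ℝ, E) 1 M] (f : M → M)
    (V W : ∀ x : M, Submodule ℝ (TangentSpace 𝓘(ℝ, E) x)) {k : ℕ} (w : Form E M (k + 1))
    (s j lam : ℝ) (q : ℝ[X]) : Prop where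
  dim : ∀ x : M, Module.finrank ℝ (V x) = k + 1
  cont : IsFormOfClass 0 w
  sign : s = 1 ∨ s = -1
  pos : ∀ (x : M) (v : Fin (k + 1) → TangentSpace 𝓘(ℝ, E) x), (∀ i, v i ∈ V x) →
    LinearIndependent ℝ v →
    0 < s * (w x v * w (f x) (fun i => mfderiv 𝓘(ℝ, E) 𝓘(ℝ, E) f x (v i)))
  j_pos : 0 < j
  grow : ∃ c > 0, ∀ (n : ℕ) (x : M) (v : Fin (k + 1) → TangentSpace 𝓘(ℝ, E) x),
    (∀ i, v i ∈ V x) →
    c * j ^ n * |w x v| ≤ |w (f^[n] x) (fun i => mfderiv 𝓘(ℝ, E) 𝓘(ℝ, E) (f^[n]) x (v i))|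
  pinched : JacobiansPinched f V W w
  lam_ne : lam ≠ 0
  roots : ∀ x : ℝ, j ≤ s * x → q.eval x ≠ 0
  cohom : AnnihilatesCohomology (E := E) f k ((X - C lam) * q)

/-- The hypotheses on the field `V` are satisfied for some data. -/
def Pinched [IsManifold 𝓘(ℝ, E) 1 M] (f : M → M)
    (V W : ∀ x : M, Submodule ℝ (TangentSpace 𝓘(ℝ, E) x)) : Prop :=
  ∃ (k : ℕ) (w : Form E M (k + 1)) (s j lam : ℝ) (q : ℝ[X]), IsPinched f V W w s j lam q

end defs

section aux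

open Pool.Agent.H74.RS

variable {E : Type*} [NormedAddCommGroup E] [NormedSpace ℝ E] [FiniteDimensional ℝ E]
  {M : Type*} [TopologicalSpace M] [ChartedSpace E M] [IsManifold 𝓘(ℝ, E) 1 M]
  [IsManifold 𝓘(ℝ, E) 2 M]

theorem pull_id {k : ℕ} (β : M → E [⋀^Fin k]→L[ℝ] ℝ) (x₀ : M) :
    pull id β x₀ = pl (ic E x₀) β := rfl

theorem pull_eq {k : ℕ} (G : M → M) (β : M → E [⋀^Fin k]→L[ℝ] ℝ) (x₀ : M) (y : E) :
    pull G β x₀ y = pl (G ∘ ic E x₀) β y := rfl

theorem polyExact_isEx {k : ℕ} (f : M → M) (hf : ContMDiff 𝓘(ℝ, E) 𝓘(ℝ, E) 1 f) (p : ℝ[X])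
    (w : M → E [⋀^Fin (k + 1)]→L[ℝ] ℝ) (β : M → E [⋀^Fin k]→L[ℝ] ℝ) (h : PolyExact f p w β) :
    IsEx ((aeval (T (k + 1) f) p) w) β := by
  intro x₀ y hy
  have h1 := h x₀ y hy
  rw [pull_id] at h1
  rw [aeval_T f hf, pl_sum, ← h1]
  apply Finset.sum_congr rfl
  intro j _
  rw [pl_smul, pl_pb _ (Pool.Agent.H721R2.iter_smooth f hf j) w x₀ hy]
  rfl

theorem volExp_of {k : ℕ} {f : M → M} {V W : ∀ x : M, Submodule ℝ (TangentSpace 𝓘(ℝ, E) x)}
    {w : Form E M (k + 1)} {s j lam : ℝ} {q : ℝ[X]}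
    (h : IsPinched f V W w s j lam q) : VolExp f V w j⁻¹ := by
  obtain ⟨c, hc, h1⟩ := h.grow
  have hj := h.j_pos
  refine ⟨inv_pos.mpr hj, c, hc, fun m x v hv => ?_⟩
  have h2 : c * j ^ m * |w x v| ≤ |w (f^[m] x) (fun i => dg E (f^[m]) x (v i))| := h1 m x v hv
  have h3 : 0 < j ^ m := pow_pos hj m
  rw [inv_pow, inv_mul_eq_div, le_div_iff₀ h3]
  calc c * |w x v| * j ^ m = c * j ^ m * |w x v| := by ring
    _ ≤ _ := h2

theorem roots_of {s j : ℝ} {q : ℝ[X]} (hj : 0 < j) (h : ∀ x : ℝ, j ≤ s * x → q.eval x ≠ 0) (x : ℝ)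
    (hx : 1 ≤ s * x * j⁻¹) : q.eval x ≠ 0 := by
  apply h
  rwa [← div_eq_mul_inv, le_div_iff₀ hj, one_mul] at hx

end aux

section aux2

open Pool.Agent.H74.RS MeasureTheory

variable {E : Type*} [NormedAddCommGroup E] [NormedSpace ℝ E] [FiniteDimensional ℝ E]
  {M : Type*} [MetricSpace M] [CompactSpace M] [ChartedSpace E M] [IsManifold 𝓘(ℝ, E) 1 M]
  [IsManifold 𝓘(ℝ, E) 2 M]
  {F : Type*} [NormedAddCommGroup F] [InnerProductSpace ℝ F] [FiniteDimensional ℝ F]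
  {e : M → F}

theorem pinch_of (he : ContMDiff 𝓘(ℝ, E) 𝓘(ℝ, F) 1 e)
    (hinj : ∀ x, Function.Injective (dm E e x)) {k : ℕ} {f : M → M}
    {V W : ∀ x : M, Submodule ℝ (TangentSpace 𝓘(ℝ, E) x)} {w : Form E M (k + 1)}
    (h : JacobiansPinched f V W w) : Pinch e f W V w := by
  obtain ⟨N, hN, h⟩ := h
  obtain ⟨R, hR, hcmp⟩ := tnm_compare hN e he hinj
  intro κ hκ
  obtain ⟨n, c, hc, hlow, hup⟩ := h (κ / (R * R)) (by positivity)
  refine ⟨n, c, hc, hlow, fun x v hv ξ hξ => ?_⟩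
  have h1 := hup x v hv ξ hξ
  have h2 := (hcmp (f^[n] x) (dg E (f^[n]) x ξ)).1
  have h3 := (hcmp x ξ).2
  set X := |w (f^[n] x) (fun i => dg E (f^[n]) x (v i))| with hX
  have h4 : X * tnm N (f^[n] x) (dg E (f^[n]) x ξ) ≤ κ / (R * R) * c * |w x v| * tnm N x ξ := h1
  calc X * ‖dm E e (f^[n] x) (dg E (f^[n]) x ξ)‖ ≤ X * (R * tnm N (f^[n] x) (dg E (f^[n]) x ξ)) :=
        mul_le_mul_of_nonneg_left h2 (abs_nonneg _)
    _ = R * (X * tnm N (f^[n] x) (dg E (f^[n]) x ξ)) := by ring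
    _ ≤ R * (κ / (R * R) * c * |w x v| * tnm N x ξ) := mul_le_mul_of_nonneg_left h4 hR.le
    _ ≤ R * (κ / (R * R) * c * |w x v| * (R * ‖dm E e x ξ‖)) := by
        apply mul_le_mul_of_nonneg_left _ hR.le
        exact mul_le_mul_of_nonneg_left h3 (by positivity)
    _ = κ * c * |w x v| * ‖dm E e x ξ‖ := by
        have hR' : R ≠ 0 := hR.ne'
        field_simp

/-- the closed calibrating form and its cohomological relation -/
theorem calib_of [IsManifold 𝓘(ℝ, E) ∞ M] [MeasurableSpace F] [BorelSpace F] {μ : Measure F}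
    [μ.IsAddHaarMeasure] (D : SmD E μ e) (he : ContMDiff 𝓘(ℝ, E) 𝓘(ℝ, F) ∞ e)
    (hinj : ∀ x, Function.Injective (dm E e x)) (hiso : ∀ x y, dist x y = ‖e x - e y‖)
    {f : M ≃ₜ M} {Es Eu : M → Submodule ℝ E} {C a b Ls Lu : ℝ}
    (h : EAnosov e f Es Eu C a b Ls Lu) (hf2 : ContMDiff 𝓘(ℝ, E) 𝓘(ℝ, E) 2 f) {l : ℕ}
    (hs : ∀ x, Module.finrank ℝ (Es x) = l) {k : ℕ} {w : Form E M (k + 1)} {s j lam : ℝ} {q : ℝ[X]}
    (hp : IsPinched f Eu Es w s j lam q) :
    ∃ (ζ : M → E [⋀^Fin (k + 1)]→L[ℝ] ℝ) (β : M → E [⋀^Fin k]→L[ℝ] ℝ), C0Form ζ ∧ C1Form β ∧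
      (∀ x, ∀ v : Fin (k + 1) → E, (∀ j, v j ∈ Eu x) → LinearIndependent ℝ v →
        0 < s * (ζ x v * pb f ζ x v)) ∧ VolExp f Eu ζ j⁻¹ ∧
      IsEx ((aeval (T (k + 1) f) ((X - Polynomial.C lam) * q)) ζ) β := by
  have he1 : ContMDiff 𝓘(ℝ, E) 𝓘(ℝ, F) 1 e := he.of_le (by simp)
  have he2 : ContMDiff 𝓘(ℝ, E) 𝓘(ℝ, F) 2 e := he.of_le (by norm_cast)
  have hw : C0Form (E := E) w := fun x₀ => contDiffOn_zero.mp (hp.cont x₀)
  have hpos : ∀ x, ∀ v : Fin (k + 1) → E, (∀ j, v j ∈ Eu x) → LinearIndependent ℝ v →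
      0 < s * (w x v * pb f w x v) := hp.pos
  obtain ⟨ζ, hζ, hζpos⟩ := exists_calib0 D he2 hinj hiso h hf2 hp.dim hs hw hpos
    (pinch_of he1 hinj hp.pinched)
  obtain ⟨β, hβ, hex⟩ := coh_c1 D he hf2 ((X - Polynomial.C lam) * q) (fun ζ hζ hcl => by
    obtain ⟨β, hβ, hex⟩ := hp.cohom ζ hζ (fun x₀ y hy => (hcl x₀ y hy).symm)
    exact ⟨β, hβ, polyExact_isEx f h.smooth _ ζ β hex⟩) hζ
  exact ⟨ζ, β, c1_c0 hζ.1, hβ, hζpos, (volExp_of hp).congr he1 hinj h hp.dim hw (c1_c0 hζ.1)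
    (ne_of_pos_sign hpos) (ne_of_pos_sign hζpos), hex⟩

end aux2

/-- A `C²` Anosov diffeomorphism `f` of a closed connected manifold is topologically transitive if
the hypotheses `Pinched` hold for its unstable field and, for `f⁻¹`, for its stable field. -/
theorem result {E : Type*} [NormedAddCommGroup E] [NormedSpace ℝ E] [FiniteDimensional ℝ E]
    {M : Type*} [TopologicalSpace M] [T2Space M] [CompactSpace M] [ConnectedSpace M]
    [ChartedSpace E M] [IsManifold 𝓘(ℝ, E) ∞ M]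
    (f : Diffeomorph 𝓘(ℝ, E) 𝓘(ℝ, E) M M 1) (hf : ContMDiff 𝓘(ℝ, E) 𝓘(ℝ, E) 2 f)
    (hf' : ContMDiff 𝓘(ℝ, E) 𝓘(ℝ, E) 2 f.symm)
    (Es Eu : ∀ x : M, Submodule ℝ (TangentSpace 𝓘(ℝ, E) x)) (hA : IsAnosov f Es Eu)
    (hu : Pinched f Eu Es) (hs : Pinched f.symm Es Eu) : TopTransitive f := by
  obtain ⟨k, w, s, j, lam, q, hc⟩ := hu
  obtain ⟨l, w', s', j', lam', q', hc'⟩ := hs
  obtain ⟨m, e, he, hemb, hinj⟩ := exists_embedding_euclidean_of_compact (I := 𝓘(ℝ, E)) (M := M)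
  let _ : MetricSpace M := hemb.isEmbedding.comapMetricSpace e
  have hiso : ∀ x y : M, dist x y = ‖e x - e y‖ := fun x y => dist_eq_norm (e x) (e y)
  have he1 : ContMDiff 𝓘(ℝ, E) (𝓡 m) 1 e := he.of_le (by simp)
  have i2 : IsManifold 𝓘(ℝ, E) 2 M := .of_le (n := ∞) (by norm_cast)
  have hsm : ContMDiff 𝓘(ℝ, E) 𝓘(ℝ, E) 1 f := f.contMDiff
  have hsm' : ContMDiff 𝓘(ℝ, E) 𝓘(ℝ, E) 1 f.symm := f.symm.contMDiff
  obtain ⟨D⟩ := Pool.Agent.H74.RS.exists_smD (E := E)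
    (MeasureTheory.volume : MeasureTheory.Measure (EuclideanSpace ℝ (Fin m))) he hemb.isEmbedding
    hinj
  obtain ⟨C₀, a₀, b₀, Ls, Lu, hE⟩ := eanosov_of_isAnosov e he1 hinj f Es Eu hA
  obtain ⟨N₀, S, hS⟩ := Pool.Agent.H74.RS.exists_Sys hiso he1 hinj hE hc.dim
  obtain ⟨ζ, β, z1, z2, z3, z4, z5⟩ := calib_of D he hinj hiso hE hf hc'.dim hc
  obtain ⟨ζ', β', y1, y2, y3, y4, y5⟩ := calib_of D he hinj hiso hE.symm hf' hc.dim hc'
  let _ : MeasurableSpace E := borel E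
  have _ : BorelSpace E := ⟨rfl⟩
  have hsq : ∀ t : ℝ, t = 1 ∨ t = -1 → t * t = 1 := by
    rintro t (rfl | rfl) <;> norm_num
  intro U V hU hUn hV hVn
  exact Pool.Agent.H74.RS.main_metric (MeasureTheory.Measure.addHaar : MeasureTheory.Measure E)
    hS hf hf' hc'.dim z1 z2 (hsq s hc.sign) z3 z4 hc.lam_ne (roots_of hc.j_pos hc.roots) z5
    y1 y2 (hsq s' hc'.sign) y3 y4 hc'.lam_ne (roots_of hc'.j_pos hc'.roots) y5 U V hU hUn hV hVn

end Pool.Agent.Results.MP_610fe3_an.PinchedJacobians
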