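import Pool.Agent.H66.Rec.An

set_option autoImplicit false

/-!
# Transitivity of Anosov diffeomorphisms: recurrence modulo symmetries of the unstable foliation
-/

open scoped Manifold ContDiff Topology Bundle
open Set Filter Bundle

namespace Pool.Agent.Results.MP_610fe3_an.RecurrenceModuloSymmetry

open Pool.Agent.H66.Rec
open Pool.Agent.W5h13.LS (LeafMap)
open Pool.Agent.H789R2.AN (IsAnosov)
open Pool.Agent.H721R2 (TopTransitive)
open Pool.Agent.TH289 (Asym)

universe v

section

variable {M : Type*} [TopologicalSpace M]

/-- `F` normalises `G` -/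
def Normalises (F : M ≃ₜ M) (G : Subgroup (M ≃ₜ M)) : Prop :=
  ∀ g ∈ G, F * g * F⁻¹ ∈ G ∧ F⁻¹ * g * F ∈ G

/-- the elements of `G` permute the unstable leaves of `f` -/
def PermutesUnstable (f : M ≃ₜ M) (G : Subgroup (M ≃ₜ M)) : Prop :=
  ∀ g ∈ G, ∀ x y, Asym f.symm x y → Asym f.symm (g x) (g y)

/-- two points with the same image under `h`: each is a limit of images of the other one under
continuous maps `M → M` which map unstable leaves of `f` into unstable leaves and whose image meets
all unstable leaves -/
def LinkedFibres {Y : Type*} (f : M ≃ₜ M) (h : M → Y) : Prop :=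
  ∀ x y, h x = h y → y ∈ closure {z | ∃ γ : M → M, LeafMap f.symm f.symm γ ∧ γ x = z}

end

theorem returns_of_transitive {M : Type*} [TopologicalSpace M] (f : M ≃ₜ M)
    (h : TopTransitive (f : M → M)) {U : Set M} (hU : IsOpen U) (hn : U.Nonempty) :
    Returns (f : M → M) U := by
  intro N
  obtain ⟨x, hx⟩ := hn
  obtain ⟨y, hy⟩ := (f.surjective.iterate N) x
  obtain ⟨n, z, ⟨w, hw, rfl⟩, hz⟩ := h U (f^[N] ⁻¹' U) hU ⟨x, hx⟩
    (hU.preimage (f.continuous.iterate N)) ⟨y, by rw [mem_preimage, hy]; exact hx⟩
  refine ⟨N + n, Nat.le_add_right N n, f^[N + n] w, ⟨w, hw, rfl⟩, ?_⟩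
  rw [Function.iterate_add_apply]
  exact hz

/-- **Recurrence modulo symmetries of the unstable foliation.**
Let `f` be a `C¹` Anosov diffeomorphism of a closed connected manifold `M`.

(1) Let `h` be a continuous map of `M` to a Hausdorff space such that two points with the same image
are limits of images of each other under leaf maps (continuous maps `M → M` which map unstable leaves
of `f` into unstable leaves and whose image meets all of them).  `h` need not be related to `f`.
Then `f` is topologically transitive if and only if it is recurrent modulo `h`: every nonempty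
set `h⁻¹(V)`, `V` open, is met by its images `fⁿ(h⁻¹(V))` for infinitely many `n`.

(2) Let `G` be an equicontinuous group of homeomorphisms of `M` which permute the unstable leaves of
`f` (they need not commute with `f` nor be normalised by `f`).  Then `f` is topologically transitive
if and only if every nonempty open `G`-invariant set `U` is met by `fⁿ(U)` for infinitely many `n`.

(3) Let `G` be an equicontinuous group of homeomorphisms of `M` which is normalised by `f` (for
instance a compact group acting on `M` with `f ∘ g = α(g) ∘ f`).  Then the elements of `G` permute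
the unstable leaves, and `f` is topologically transitive as soon as the homeomorphism of the
orbit space induced by `f` has no wandering points, or is chain transitive (no proper nonempty open
`G`-invariant set `U` with `closure (f U) ⊆ U`). -/
theorem result (E : Type*) [NormedAddCommGroup E] [NormedSpace ℝ E] [FiniteDimensional ℝ E]
    (M : Type*) [TopologicalSpace M] [T2Space M] [CompactSpace M] [ConnectedSpace M]
    [ChartedSpace E M] [IsManifold 𝓘(ℝ, E) ∞ M] (f : Diffeomorph 𝓘(ℝ, E) 𝓘(ℝ, E) M M 1)
    (Es Eu : ∀ x : M, Submodule ℝ (TangentSpace 𝓘(ℝ, E) x)) (hf : IsAnosov f Es Eu) :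
    (∀ (Y : Type v) [TopologicalSpace Y] [T2Space Y] (h : M → Y), Continuous h →
      LinkedFibres f.toHomeomorph h →
      (TopTransitive f ↔
        ∀ V : Set Y, IsOpen V → (h ⁻¹' V).Nonempty → Returns f (h ⁻¹' V))) ∧
    (∀ G : Subgroup (M ≃ₜ M), Equi (G : Set (M ≃ₜ M)) → PermutesUnstable f.toHomeomorph G →
      (TopTransitive f ↔
        ∀ U : Set M, IsOpen U → U.Nonempty → Inv (G : Set (M ≃ₜ M)) U → Returns f U)) ∧
    (∀ G : Subgroup (M ≃ₜ M), Equi (G : Set (M ≃ₜ M)) → Normalises f.toHomeomorph G →
      PermutesUnstable f.toHomeomorph G ∧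
      [TopTransitive f,
        ∀ U : Set M, IsOpen U → U.Nonempty → Inv (G : Set (M ≃ₜ M)) U →
          ∃ n ≥ 1, (f^[n] '' U ∩ U).Nonempty,
        ∀ U : Set M, IsOpen U → U.Nonempty → Inv (G : Set (M ≃ₜ M)) U → closure (f '' U) ⊆ U →
          U = univ].TFAE) := by
  refine ⟨?_, ?_, ?_⟩
  · intro Y _ _ h hh hlink
    constructor
    · intro ht V hV hne
      exact returns_of_transitive f.toHomeomorph ht (hV.preimage hh) hne
    · intro hret
      refine core f Es Eu hf fun A O hAc hAn hinv hAγ hO => ?_
      refine map_univ hAc hAn hO hh (fun x hx y hxy => ?_) hret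
      refine closure_minimal ?_ hAc (hlink x y hxy)
      rintro _ ⟨γ, hγ, rfl⟩
      exact hAγ γ hγ hx
  · intro G hG hp
    constructor
    · intro ht U hU hne _
      exact returns_of_transitive f.toHomeomorph ht hU hne
    · intro hret
      refine core f Es Eu hf fun A O hAc hAn hinv hAγ hO => ?_
      have hmet : TopologicalSpace.MetrizableSpace M := by
        have h1 : SigmaCompactSpace M := inferInstance
        exact Manifold.metrizableSpace 𝓘(ℝ, E) M
      let _ : MetricSpace M := TopologicalSpace.metrizableSpaceMetric M
      exact group_univ hG hAc hAn hO (fun g hg x hx => hAγ g (leafMap_homeo _ hp hg) hx) hret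
  · intro G hG hN
    have hN1 : ∀ g ∈ G, ∃ g' ∈ G, ∀ x, f (g x) = g' (f x) := by
      intro g hg
      refine ⟨_, (hN g hg).1, fun x => ?_⟩
      show f (g x) = f (g (f.toHomeomorph.symm (f.toHomeomorph x)))
      rw [f.toHomeomorph.symm_apply_apply]
    have hN2 : ∀ g ∈ G, ∃ g' ∈ G, ∀ x, f.toHomeomorph.symm (g x) = g' (f.toHomeomorph.symm x) := by
      intro g hg
      refine ⟨_, (hN g hg).2, fun x => ?_⟩
      show _ = f.toHomeomorph.symm (g (f.toHomeomorph (f.toHomeomorph.symm x)))
      rw [f.toHomeomorph.apply_symm_apply]
    have hp : PermutesUnstable f.toHomeomorph G := fun g hg x y hxy =>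
      leafMap_of_equi f.toHomeomorph hG hN2 hg hxy
    refine ⟨hp, ?_⟩
    tfae_have 1 → 2 := by
      intro ht U hU hne _
      exact returns_of_transitive f.toHomeomorph ht hU hne 1
    tfae_have 2 → 3 := by
      intro h U hU hne hUi hc
      have hfi : ∀ g ∈ G, ∀ x ∈ closure (f '' U), g x ∈ closure (f '' U) := by
        intro g hg x hx
        have h1 : MapsTo g (f '' U) (f '' U) := by
          rintro _ ⟨z, hz, rfl⟩
          obtain ⟨g', hg', h2⟩ := hN2 g hg
          refine ⟨g' z, hUi g' hg' z hz, ?_⟩
          have h3 := h2 (f z)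
          have h4 : f.toHomeomorph.symm (f z) = z := f.toHomeomorph.symm_apply_apply z
          rw [h4] at h3
          rw [← h3]
          exact f.toHomeomorph.apply_symm_apply (g (f z))
        exact h1.closure g.continuous hx
      have hsub : U ⊆ closure (f '' U) := by
        intro x hx
        by_contra hxc
        obtain ⟨n, hn, y, ⟨z, hz, rfl⟩, hy⟩ := h (U ∩ (closure (f '' U))ᶜ)
          (hU.inter isClosed_closure.isOpen_compl) ⟨x, hx, hxc⟩ (by
            intro g hg y hy
            refine ⟨hUi g hg y hy.1, fun hgy => hy.2 ?_⟩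
            have h1 := hfi g⁻¹ (G.inv_mem hg) _ hgy
            have h2 : (g⁻¹ : M ≃ₜ M) (g y) = y := g.symm_apply_apply y
            rwa [h2] at h1)
        have hiter : ∀ k : ℕ, f^[k] z ∈ U := by
          intro k
          induction k with
          | zero => exact hz.1
          | succ k ih =>
            rw [Function.iterate_succ_apply']
            exact hc (subset_closure ⟨_, ih, rfl⟩)
        obtain ⟨k, rfl⟩ : ∃ k, n = k + 1 := ⟨n - 1, by omega⟩
        apply hy.2
        rw [Function.iterate_succ_apply']
        exact subset_closure ⟨_, hiter k, rfl⟩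
      have h1 : U = closure (f '' U) := Subset.antisymm hsub hc
      exact eq_univ_of_open (h1 ▸ isClosed_closure) hU hne
    tfae_have 3 → 1 := by
      intro htr
      refine core f Es Eu hf fun A O hAc hAn hinv hAγ hO => ?_
      have hmet : TopologicalSpace.MetrizableSpace M := by
        have h1 : SigmaCompactSpace M := inferInstance
        exact Manifold.metrizableSpace 𝓘(ℝ, E) M
      let _ : MetricSpace M := TopologicalSpace.metrizableSpaceMetric M
      exact trap_univ hG f.toHomeomorph.continuous hN1 hAc hAn (fun x hx => (hinv x).mpr hx) hO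
        (fun g hg x hx => hAγ g (leafMap_homeo _ hp hg) hx) htr
    tfae_finish

end Pool.Agent.Results.MP_610fe3_an.RecurrenceModuloSymmetry
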