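import Pool.Agent.H66.Fib.OmegaM

set_option autoImplicit false

/-!
# Smooth factors of Anosov diffeomorphisms and transitivity
-/

open scoped Manifold ContDiff Topology Bundle
open Set Filter Bundle

namespace Pool.Agent.Results.MP_610fe3_an.SmoothFactors

open Pool.Agent.H66.Fib
open Pool.Agent.H789R2.AN (IsAnosov)
open Pool.Agent.H721R2 (TopTransitive)
open Pool.Agent.TH289 (Asym)

/-- `g` is an Anosov diffeomorphism -/
def Anosov {E : Type*} [NormedAddCommGroup E] [NormedSpace ℝ E] {M : Type*} [TopologicalSpace M]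
    [ChartedSpace E M] [IsManifold 𝓘(ℝ, E) 1 M] (g : Diffeomorph 𝓘(ℝ, E) 𝓘(ℝ, E) M M 1) : Prop :=
  ∃ Es Eu : ∀ x : M, Submodule ℝ (TangentSpace 𝓘(ℝ, E) x), IsAnosov g Es Eu

/-- `f` is transitive, `g` is transitive, `g` has no wandering points, `g` is chain transitive
(it has no proper trapping regions): these are equivalent -/
def Equivalent {M Y : Type*} [TopologicalSpace M] [TopologicalSpace Y] (f : M → M) (g : Y → Y) :
    Prop :=
  [TopTransitive f, TopTransitive g,
    ∀ U : Set Y, IsOpen U → U.Nonempty → ∃ n ≥ 1, (g^[n] '' U ∩ U).Nonempty,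
    ∀ U : Set Y, IsOpen U → U.Nonempty → closure (g '' U) ⊆ U → U = univ].TFAE

section defs

variable {E : Type*} [NormedAddCommGroup E] [NormedSpace ℝ E] {M : Type*} [TopologicalSpace M]
  [ChartedSpace E M] [IsManifold 𝓘(ℝ, E) 1 M] {E' : Type*} [NormedAddCommGroup E']
  [NormedSpace ℝ E'] {B : Type*} [TopologicalSpace B] [ChartedSpace E' B]

/-- `p` is a `C¹` submersion -/
def Submersion (E E' : Type*) [NormedAddCommGroup E] [NormedSpace ℝ E] [NormedAddCommGroup E']
    [NormedSpace ℝ E'] {M : Type*} [TopologicalSpace M] [ChartedSpace E M]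
    {B : Type*} [TopologicalSpace B] [ChartedSpace E' B] (p : M → B) : Prop :=
  ContMDiff 𝓘(ℝ, E) 𝓘(ℝ, E') 1 p ∧ ∀ x, Function.Surjective (mfderiv 𝓘(ℝ, E) 𝓘(ℝ, E') p x)

/-- the vertical bundle of `p` has a continuous frame which `Df` transforms by a constant matrix -/
def ConstantFrame (E E' : Type*) [NormedAddCommGroup E] [NormedSpace ℝ E] [NormedAddCommGroup E']
    [NormedSpace ℝ E'] {M : Type*} [TopologicalSpace M] [ChartedSpace E M] [IsManifold 𝓘(ℝ, E) 1 M]
    {B : Type*} [TopologicalSpace B] [ChartedSpace E' B] (f : M → M) (p : M → B) : Prop :=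
  ∃ (k : ℕ) (A : Matrix (Fin k) (Fin k) ℝ) (X : Fin k → ∀ x : M, TangentSpace 𝓘(ℝ, E) x),
    (∀ i, Continuous fun x => (⟨x, X i x⟩ : TangentBundle 𝓘(ℝ, E) M)) ∧
    (∀ (x : M) (v : TangentSpace 𝓘(ℝ, E) x),
      mfderiv 𝓘(ℝ, E) 𝓘(ℝ, E') p x v = 0 ↔ v ∈ Submodule.span ℝ (range fun i => X i x)) ∧
    ∀ i x, mfderiv 𝓘(ℝ, E) 𝓘(ℝ, E) f x (X i x) = ∑ j, A j i • X j (f x)

/-- `R` is a `C¹` action of `ℝᵏ` which is normalised by `f` -/
def Normalised (E : Type*) [NormedAddCommGroup E] [NormedSpace ℝ E] {M : Type*}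
    [TopologicalSpace M] [ChartedSpace E M] (f : M → M) {k : ℕ} (R : (Fin k → ℝ) → M → M) : Prop :=
  IsAct E R ∧ ∃ A : Matrix (Fin k) (Fin k) ℝ, ∀ v x, f (R v x) = R (A.mulVec v) (f x)

/-- the fibres of `p` are the orbits of `R`, and the generating vector fields of `R` span the
vertical bundle -/
def OrbitFibration (E E' : Type*) [NormedAddCommGroup E] [NormedSpace ℝ E] [NormedAddCommGroup E']
    [NormedSpace ℝ E'] {M : Type*} [TopologicalSpace M] [ChartedSpace E M]
    {B : Type*} [TopologicalSpace B] [ChartedSpace E' B] {k : ℕ} (R : (Fin k → ℝ) → M → M)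
    (p : M → B) : Prop :=
  (∀ x y, p x = p y ↔ ∃ v, R v x = y) ∧
    ∀ (x : M) (w : TangentSpace 𝓘(ℝ, E) x), mfderiv 𝓘(ℝ, E) 𝓘(ℝ, E') p x w = 0 →
      ∃ v, inf E R x v = w

/-- the continuous surjection `h` is a semiconjugacy from `f` to `g` -/
structure Semiconj {M Y : Type*} [TopologicalSpace M] [TopologicalSpace Y] (f : M → M)
    (h : M → Y) (g : Y → Y) : Prop where
  cont : Continuous h
  surj : Function.Surjective h
  cont' : Continuous g
  comm : ∀ x, h (f x) = g (h x)

/-- `y` is an `ω`-limit point of `x` -/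
def OmegaLimit {M : Type*} [TopologicalSpace M] (f : M → M) (x y : M) : Prop :=
  ∀ U ∈ 𝓝 y, ∃ᶠ n : ℕ in atTop, f^[n] x ∈ U

end defs

/-- **Smooth factors of Anosov diffeomorphisms.**
Let `M`, `B` be closed connected manifolds, `p : M → B` a `C¹` submersion, `f` a `C¹` Anosov
diffeomorphism of `M` and `g` a `C¹` diffeomorphism of `B` with `p ∘ f = g ∘ p`.  Nothing is assumed
on the behaviour of `f` on the vertical bundle `V = ker dp`, and nothing is assumed on `g`.

(1) `g` is Anosov if and only if `V = (V ∩ Eˢ) ⊕ (V ∩ Eᵘ)` at every point.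
(2) This splitting holds at all `ω`-limit points of `f`.
(3) If `f` is transitive, then `g` is Anosov (and transitive).
(4) If `V` has a frame of continuous vector fields which `Df` transforms by a constant matrix, then
`g` is Anosov.
(5) Assume that the fibres of `p` are the orbits of a `C¹` action `R` of `ℝᵏ` whose generating vector
fields span `V` and which is normalised by `f`: `f (R v x) = R (A v) (f x)` for a matrix `A` (for
instance, `p` is a principal torus bundle).  Then `g` is Anosov; `f` is transitive iff `g` is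
transitive, iff `g` has no wandering points, iff `g` has no proper trapping regions; `dim B ≠ 1`;
and if `dim B = 2` and `g` is `C²`, then `f` is transitive.
(6) Let `h` be a continuous map of `M` onto a Hausdorff space `Y` with `h ∘ f = g' ∘ h`, `g'`
continuous.  Suppose that any two points `x`, `y` of a fibre of `h` are heteroclinically related:
some point lies both in the unstable manifold of `x` and in the stable manifold of `y`.  Then the
same four conditions, for `g'`, are equivalent.  (7) This holds if the fibres of `h` lie in orbits of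
a `C¹` action of `ℝᵏ` which is normalised by `f`. -/
theorem result (E : Type*) [NormedAddCommGroup E] [NormedSpace ℝ E] [FiniteDimensional ℝ E]
    (M : Type*) [TopologicalSpace M] [T2Space M] [CompactSpace M] [ConnectedSpace M]
    [ChartedSpace E M] [IsManifold 𝓘(ℝ, E) ∞ M]
    (f : Diffeomorph 𝓘(ℝ, E) 𝓘(ℝ, E) M M 1)
    (Es Eu : ∀ x : M, Submodule ℝ (TangentSpace 𝓘(ℝ, E) x)) (hf : IsAnosov f Es Eu) :
    (∀ (E' : Type*) [NormedAddCommGroup E'] [NormedSpace ℝ E'] [FiniteDimensional ℝ E']
      (B : Type*) [TopologicalSpace B] [T2Space B] [CompactSpace B] [ConnectedSpace B]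
      [ChartedSpace E' B] [IsManifold 𝓘(ℝ, E') ∞ B]
      (p : M → B) (g : Diffeomorph 𝓘(ℝ, E') 𝓘(ℝ, E') B B 1),
      Submersion E E' p → (∀ x, p (f x) = g (p x)) →
      (Anosov g ↔ ∀ x, VSplitAt E E' p Es Eu x) ∧
      (∀ x y, OmegaLimit f x y → VSplitAt E E' p Es Eu y) ∧
      (TopTransitive f → Anosov g ∧ TopTransitive g) ∧
      (ConstantFrame E E' f p → Anosov g) ∧
      (∀ (k : ℕ) (R : (Fin k → ℝ) → M → M), Normalised E f R → OrbitFibration E E' R p →
        Anosov g ∧ Equivalent f g ∧ Module.finrank ℝ E' ≠ 1 ∧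
        (Module.finrank ℝ E' = 2 → ContMDiff 𝓘(ℝ, E') 𝓘(ℝ, E') 2 g →
          ContMDiff 𝓘(ℝ, E') 𝓘(ℝ, E') 2 g.symm → TopTransitive f))) ∧
    (∀ (Y : Type*) [TopologicalSpace Y] [T2Space Y] (h : M → Y) (g : Y → Y), Semiconj f h g →
      ((∀ x y, h x = h y → ∃ z, Asym f.symm x z ∧ Asym f y z) → Equivalent f g) ∧
      ∀ (k : ℕ) (R : (Fin k → ℝ) → M → M), Normalised E f R →
        (∀ x y, h x = h y → ∃ v, R v x = y) → Equivalent f g) := by
  refine ⟨?_, ?_⟩
  · rintro E' _ _ _ B _ _ _ _ _ _ p g ⟨hp, hps⟩ hfg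
    have hsur : Function.Surjective p := subm_surj p hp hps
    refine ⟨⟨?_, ?_⟩, ?_, ?_, ?_, ?_⟩
    · rintro ⟨Es', Eu', hB⟩
      exact split_of_base f Es Eu hf p hp g hfg Es' Eu' hB
    · intro hsp
      exact base_of_split f Es Eu hf p hp hps hsur g hfg hsp
    · exact fun x y hxy => vsplitAt_omega f Es Eu hf p hp hps g hfg x y hxy
    · intro ht
      exact ⟨base_of_split f Es Eu hf p hp hps hsur g hfg
        (vsplit_of_transitive f Es Eu hf p hp hps g hfg ht), trans_factor hp.continuous hsur hfg ht⟩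
    · rintro ⟨k, A, X, hX, hspan, hinv⟩
      exact base_of_split f Es Eu hf p hp hps hsur g hfg
        (frame_vsplit f Es Eu hf p A X hX hspan hinv)
    · rintro k R ⟨hR, A, hfR⟩ ⟨hfib, hker⟩
      have hB : Anosov g := base_of_split f Es Eu hf p hp hps hsur g hfg
        (act_vsplit f Es Eu hf p hp hR hfR (fun v x => ((hfib x _).mpr ⟨v, rfl⟩).symm) hker)
      have heq : Equivalent f g := by
        refine het_tfae f Es Eu hf hp.continuous hsur g.continuous hfg fun x y hxy => ?_
        obtain ⟨v, rfl⟩ := (hfib x y).mp hxy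
        exact act_het f Es Eu hf hR hfR v x
      obtain ⟨Es', Eu', hB'⟩ := hB
      refine ⟨⟨Es', Eu', hB'⟩, heq, fun h1 => ?_, fun h2 hg2 hg2' => ?_⟩
      · have : Nontrivial E' := Module.nontrivial_of_finrank_pos (R := ℝ) (by omega)
        obtain ⟨y⟩ : Nonempty B := inferInstance
        obtain ⟨h3, h4, h5⟩ := anosov_dims g Es' Eu' hB' y
        omega
      · have : Nontrivial E' := Module.nontrivial_of_finrank_pos (R := ℝ) (by omega)
        have h3 := anosov_dims g Es' Eu' hB'
        have h4 : TopTransitive g := by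
          refine Pool.Agent.R189.Sf.surf_trans g hg2 hg2' Es' Eu' hB' (fun y => ?_) (fun y => ?_)
          · obtain ⟨h4, h5, h6⟩ := h3 y
            have h7 : Module.finrank ℝ (Es' y : Submodule ℝ E') = 1 := by omega
            exact h7
          · obtain ⟨h4, h5, h6⟩ := h3 y
            have h7 : Module.finrank ℝ (Eu' y : Submodule ℝ E') = 1 := by omega
            exact h7
        exact (List.TFAE.out heq 1 0).mp h4
  · intro Y _ _ h g hS
    refine ⟨fun hfib => het_tfae f Es Eu hf hS.cont hS.surj hS.cont' hS.comm hfib, ?_⟩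
    rintro k R ⟨hR, A, hfR⟩ hfib
    refine het_tfae f Es Eu hf hS.cont hS.surj hS.cont' hS.comm fun x y hxy => ?_
    obtain ⟨v, rfl⟩ := hfib x y hxy
    exact act_het f Es Eu hf hR hfR v x

end Pool.Agent.Results.MP_610fe3_an.SmoothFactors
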